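import Pool.Agent.Helper88.SlabNumeric

/-!
# FA-F3f: far tail of the series of the square wave
-/

set_option autoImplicit false

open MeasureTheory Set Real

namespace Pool.Agent.Helper89.FA

namespace FarAux

open Pool.Agent.Helper88.Slab (abs_sinc_le_inv sinc_nonneg sinc_le)

lemma log_le_six {Z : ℝ} (hZ : π ≤ Z) : log Z ≤ Z ^ 2 / 6 := by
  have hpi : 3 < π := pi_gt_three
  have hZ0 : 0 < Z := by linarith
  have he : 0 < exp 1 := exp_pos 1
  have h1 : log (Z / exp 1) ≤ Z / exp 1 - 1 := log_le_sub_one_of_pos (by positivity)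
  rw [log_div hZ0.ne' he.ne', log_exp] at h1
  have h2 : Z / exp 1 ≤ Z / 2 := by
    have : (2 : ℝ) ≤ exp 1 := by
      have := exp_one_gt_d9; linarith
    exact div_le_div_of_nonneg_left hZ0.le (by norm_num) this
  nlinarith

lemma gen {z Z : ℝ} (hZ : π ≤ Z) (hz : |z| ≤ Z) :
    |sinc z| ≤ exp (-(log Z / Z ^ 2 * z ^ 2)) := by
  have hpi : 3 < π := pi_gt_three
  have hZ0 : 0 < Z := by linarith
  rcases le_total |z| π with h | h
  · rw [abs_of_nonneg (sinc_nonneg h)]
    refine (sinc_le h).trans (exp_le_exp.mpr ?_)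
    have h1 : log Z / Z ^ 2 ≤ 1 / 6 := by
      rw [div_le_iff₀ (by positivity)]
      have := log_le_six hZ; linarith
    have h2 : log Z / Z ^ 2 * z ^ 2 ≤ 1 / 6 * z ^ 2 :=
      mul_le_mul_of_nonneg_right h1 (sq_nonneg z)
    linarith
  · have hz0 : 0 < |z| := by linarith
    have hzne : z ≠ 0 := abs_pos.mp hz0
    refine (abs_sinc_le_inv hzne).trans ?_
    have hexp3 : exp 1 ≤ 3 := by have := exp_one_lt_d9; linarith
    have h1 : log Z / Z ≤ log |z| / |z| :=
      log_div_self_antitoneOn (show exp 1 ≤ |z| by linarith) (show exp 1 ≤ Z by linarith) hz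
    have hl : 0 ≤ log Z := log_nonneg (by linarith)
    have h2 : log Z / Z ^ 2 * z ^ 2 ≤ log |z| := by
      rw [← sq_abs z]
      have h3 : log Z / Z ^ 2 * |z| ^ 2 = (log Z / Z) * (|z| / Z) * |z| := by
        field_simp
      rw [h3]
      have h4 : |z| / Z ≤ 1 := by rw [div_le_one hZ0]; exact hz
      have h5 : (log Z / Z) * (|z| / Z) ≤ log Z / Z := by
        have : 0 ≤ log Z / Z := by positivity
        nlinarith
      have h6 : (log Z / Z) * (|z| / Z) ≤ log |z| / |z| := h5.trans h1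
      calc (log Z / Z) * (|z| / Z) * |z| ≤ log |z| / |z| * |z| :=
            mul_le_mul_of_nonneg_right h6 hz0.le
        _ = log |z| := by field_simp
    calc 1 / |z| = exp (-(log |z|)) := by rw [exp_neg, exp_log hz0, one_div]
      _ ≤ exp (-(log Z / Z ^ 2 * z ^ 2)) := exp_le_exp.mpr (by linarith)

lemma tele (f v : ℕ → ℝ) (D : ℝ) (hf : ∀ k, 0 ≤ f k) (hD : 0 ≤ D) (hv : ∀ k, 0 ≤ v k)
    (h : ∀ k, f k ≤ D * (v k - v (k + 1))) : Summable f ∧ ∑' k, f k ≤ D * v 0 := by
  have hs : ∀ n, ∑ i ∈ Finset.range n, f i ≤ D * v 0 := by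
    intro n
    have h1 : ∑ i ∈ Finset.range n, f i ≤ D * (v 0 - v n) := by
      induction n with
      | zero => simp
      | succ n ih =>
        rw [Finset.sum_range_succ]
        have := h n
        nlinarith
    have h2 : 0 ≤ D * v n := mul_nonneg hD (hv n)
    nlinarith
  exact ⟨summable_of_sum_range_le hf hs, Real.tsum_le_of_sum_range_le hf hs⟩

lemma quartic (K : ℝ) (hK : 11 ≤ K) :
    1 / K ^ 4 ≤ 1 / 6 * (1 / (K - 1) ^ 3 - 1 / (K + 1) ^ 3) := by
  have h1 : 0 < K - 1 := by linarith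
  have h2 : 0 < K + 1 := by linarith
  have h0 : 0 < K := by linarith
  have e : 1 / 6 * (1 / (K - 1) ^ 3 - 1 / (K + 1) ^ 3)
      = (6 * K ^ 2 + 2) / (6 * ((K - 1) ^ 3 * (K + 1) ^ 3)) := by
    field_simp
    ring
  rw [e, div_le_div_iff₀ (by positivity) (by positivity)]
  have h3 : (K - 1) ^ 3 * (K + 1) ^ 3 = (K ^ 2 - 1) ^ 3 := by ring
  rw [h3]
  have h4 : 0 < K ^ 2 := by positivity
  nlinarith [mul_pos h4 h4, mul_pos (mul_pos h4 h4) h4, sq_nonneg (K ^ 2 - 1)]

end FarAux

open FarAux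

/-- F3f. Far tail, all coordinates. -/
theorem far_all {n : ℕ} (x : Fin n → ℝ) {w m : ℝ} (hw : w ≤ ∑ j, x j ^ 2) (hm : ∀ j, |x j| ≤ m)
    (hm1 : π ≤ 11 * m) (hE : 3 * m ^ 2 ≤ w) :
    Summable (fun k : ℕ => |∏ j, sinc ((2 * ((k + 5 : ℕ) : ℝ) + 1) * x j)| / (2 * ((k + 5 : ℕ) : ℝ) + 1)) ∧
    ∑' k : ℕ, |∏ j, sinc ((2 * ((k + 5 : ℕ) : ℝ) + 1) * x j)| / (2 * ((k + 5 : ℕ) : ℝ) + 1) ≤
      exp (-(w / m ^ 2 - 3) * log (11 * m)) / (6000 * m ^ 3) := by
  have hpi : 3 < π := pi_gt_three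
  have hm0 : 0 < m := by linarith
  set C : ℝ := exp (-(w / m ^ 2 - 3) * log (11 * m)) with hC
  have hC0 : 0 < C := exp_pos _
  have key := tele
    (fun k : ℕ => |∏ j, sinc ((2 * ((k + 5 : ℕ) : ℝ) + 1) * x j)| / (2 * ((k + 5 : ℕ) : ℝ) + 1))
    (fun k : ℕ => 1 / 6 * (1 / (2 * (k : ℝ) + 10) ^ 3)) (C / m ^ 3)
    (fun k => by positivity) (by positivity) (fun k => by positivity) ?_
  · refine ⟨key.1, key.2.trans (le_of_eq ?_)⟩
    simp only [Nat.cast_zero, mul_zero, zero_add]
    field_simp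
    norm_num
  · intro k
    set K : ℝ := 2 * ((k + 5 : ℕ) : ℝ) + 1 with hK
    have hK' : K = 2 * (k : ℝ) + 11 := by rw [hK]; push_cast; ring
    have hk0 : (0 : ℝ) ≤ (k : ℝ) := Nat.cast_nonneg k
    have hK11 : 11 ≤ K := by rw [hK']; linarith
    have hK0 : 0 < K := by linarith
    have hZ11 : 11 * m ≤ K * m := mul_le_mul_of_nonneg_right hK11 hm0.le
    have hZ : π ≤ K * m := hm1.trans hZ11
    have hZ0 : 0 < K * m := by positivity
    have hlogZ : 0 ≤ log (K * m) := log_nonneg (by linarith)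
    have hE' : 3 ≤ w / m ^ 2 := by rw [le_div_iff₀ (by positivity)]; exact hE
    have hlog11 : log (11 * m) ≤ log (K * m) := log_le_log (by positivity) hZ11
    have hprod : |∏ j, sinc (K * x j)| ≤ C * (1 / (K * m) ^ 3) := by
      rw [Finset.abs_prod]
      calc ∏ j, |sinc (K * x j)|
          ≤ ∏ j, exp (-(log (K * m) / (K * m) ^ 2 * (K * x j) ^ 2)) := by
            refine Finset.prod_le_prod (fun _ _ => abs_nonneg _) fun j _ => ?_
            refine gen hZ ?_
            rw [abs_mul, abs_of_pos hK0]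
            exact mul_le_mul_of_nonneg_left (hm j) hK0.le
        _ = exp (-(log (K * m) / m ^ 2 * ∑ j, x j ^ 2)) := by
            rw [← exp_sum, Finset.sum_neg_distrib, Finset.mul_sum]
            congr 2
            refine Finset.sum_congr rfl fun j _ => ?_
            field_simp
        _ ≤ exp (-(w / m ^ 2 - 3) * log (K * m) - 3 * log (K * m)) := by
            refine exp_le_exp.mpr ?_
            have h1 : log (K * m) / m ^ 2 * w ≤ log (K * m) / m ^ 2 * ∑ j, x j ^ 2 :=
              mul_le_mul_of_nonneg_left hw (by positivity)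
            have h2 : log (K * m) / m ^ 2 * w = w / m ^ 2 * log (K * m) := by ring
            nlinarith
        _ = exp (-(w / m ^ 2 - 3) * log (K * m)) * (1 / (K * m) ^ 3) := by
            rw [exp_sub]
            have : exp (3 * log (K * m)) = (K * m) ^ 3 := by
              rw [show (3 : ℝ) * log (K * m) = ((3 : ℕ) : ℝ) * log (K * m) by norm_num,
                exp_nat_mul, exp_log hZ0]
            rw [this]; ring
        _ ≤ C * (1 / (K * m) ^ 3) := by
            refine mul_le_mul_of_nonneg_right ?_ (by positivity)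
            rw [hC]
            refine exp_le_exp.mpr ?_
            nlinarith
    have hq := quartic K hK11
    have e1 : K - 1 = 2 * (k : ℝ) + 10 := by rw [hK']; ring
    have e2 : K + 1 = 2 * ((k + 1 : ℕ) : ℝ) + 10 := by rw [hK']; push_cast; ring
    calc |∏ j, sinc (K * x j)| / K ≤ C * (1 / (K * m) ^ 3) / K :=
          div_le_div_of_nonneg_right hprod hK0.le
      _ = C / m ^ 3 * (1 / K ^ 4) := by
          field_simp
      _ ≤ C / m ^ 3 * (1 / 6 * (1 / (K - 1) ^ 3 - 1 / (K + 1) ^ 3)) :=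
          mul_le_mul_of_nonneg_left hq (by positivity)
      _ = C / m ^ 3 * (1 / 6 * (1 / (2 * (k : ℝ) + 10) ^ 3)
            - 1 / 6 * (1 / (2 * ((k + 1 : ℕ) : ℝ) + 10) ^ 3)) := by
          rw [e1, e2]; ring

/-- F3f. Far tail, one coordinate apart. -/
theorem far_one {n : ℕ} (x : Fin n → ℝ) (i : Fin n) {r m x0 : ℝ} (hx0 : 0 < x0) (hi : x0 ≤ |x i|)
    (hr : r ≤ ∑ j ∈ Finset.univ.erase i, x j ^ 2) (hm : ∀ j, j ≠ i → |x j| ≤ m)
    (hm1 : π ≤ 11 * m) (hE : 2 * m ^ 2 ≤ r) :
    Summable (fun k : ℕ => |∏ j, sinc ((2 * ((k + 5 : ℕ) : ℝ) + 1) * x j)| / (2 * ((k + 5 : ℕ) : ℝ) + 1)) ∧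
    ∑' k : ℕ, |∏ j, sinc ((2 * ((k + 5 : ℕ) : ℝ) + 1) * x j)| / (2 * ((k + 5 : ℕ) : ℝ) + 1) ≤
      exp (-(r / m ^ 2 - 2) * log (11 * m)) / (6000 * m ^ 2 * x0) := by
  have hpi : 3 < π := pi_gt_three
  have hm0 : 0 < m := by linarith
  set C : ℝ := exp (-(r / m ^ 2 - 2) * log (11 * m)) with hC
  have hC0 : 0 < C := exp_pos _
  have key := tele
    (fun k : ℕ => |∏ j, sinc ((2 * ((k + 5 : ℕ) : ℝ) + 1) * x j)| / (2 * ((k + 5 : ℕ) : ℝ) + 1))
    (fun k : ℕ => 1 / 6 * (1 / (2 * (k : ℝ) + 10) ^ 3)) (C / (m ^ 2 * x0))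
    (fun k => by positivity) (by positivity) (fun k => by positivity) ?_
  · refine ⟨key.1, key.2.trans (le_of_eq ?_)⟩
    simp only [Nat.cast_zero, mul_zero, zero_add]
    field_simp
    norm_num
  · intro k
    set K : ℝ := 2 * ((k + 5 : ℕ) : ℝ) + 1 with hK
    have hK' : K = 2 * (k : ℝ) + 11 := by rw [hK]; push_cast; ring
    have hk0 : (0 : ℝ) ≤ (k : ℝ) := Nat.cast_nonneg k
    have hK11 : 11 ≤ K := by rw [hK']; linarith
    have hK0 : 0 < K := by linarith
    have hZ11 : 11 * m ≤ K * m := mul_le_mul_of_nonneg_right hK11 hm0.le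
    have hZ : π ≤ K * m := hm1.trans hZ11
    have hZ0 : 0 < K * m := by positivity
    have hlogZ : 0 ≤ log (K * m) := log_nonneg (by linarith)
    have hE' : 2 ≤ r / m ^ 2 := by rw [le_div_iff₀ (by positivity)]; exact hE
    have hlog11 : log (11 * m) ≤ log (K * m) := log_le_log (by positivity) hZ11
    have hi0 : 0 < |x i| := lt_of_lt_of_le hx0 hi
    have hxi : |sinc (K * x i)| ≤ 1 / (K * x0) := by
      have hne : K * x i ≠ 0 := mul_ne_zero hK0.ne' (abs_pos.mp hi0)
      refine (Pool.Agent.Helper88.Slab.abs_sinc_le_inv hne).trans ?_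
      rw [abs_mul, abs_of_pos hK0]
      exact one_div_le_one_div_of_le (by positivity) (mul_le_mul_of_nonneg_left hi hK0.le)
    have hprod0 : ∏ j ∈ Finset.univ.erase i, |sinc (K * x j)| ≤ C * (1 / (K * m) ^ 2) := by
      calc ∏ j ∈ Finset.univ.erase i, |sinc (K * x j)|
          ≤ ∏ j ∈ Finset.univ.erase i, exp (-(log (K * m) / (K * m) ^ 2 * (K * x j) ^ 2)) := by
            refine Finset.prod_le_prod (fun _ _ => abs_nonneg _) fun j hj => ?_
            refine gen hZ ?_
            rw [abs_mul, abs_of_pos hK0]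
            exact mul_le_mul_of_nonneg_left (hm j (Finset.ne_of_mem_erase hj)) hK0.le
        _ = exp (-(log (K * m) / m ^ 2 * ∑ j ∈ Finset.univ.erase i, x j ^ 2)) := by
            rw [← exp_sum, Finset.sum_neg_distrib, Finset.mul_sum]
            congr 2
            refine Finset.sum_congr rfl fun j _ => ?_
            field_simp
        _ ≤ exp (-(r / m ^ 2 - 2) * log (K * m) - 2 * log (K * m)) := by
            refine exp_le_exp.mpr ?_
            have h1 : log (K * m) / m ^ 2 * r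
                ≤ log (K * m) / m ^ 2 * ∑ j ∈ Finset.univ.erase i, x j ^ 2 :=
              mul_le_mul_of_nonneg_left hr (by positivity)
            have h2 : log (K * m) / m ^ 2 * r = r / m ^ 2 * log (K * m) := by ring
            nlinarith
        _ = exp (-(r / m ^ 2 - 2) * log (K * m)) * (1 / (K * m) ^ 2) := by
            rw [exp_sub]
            have : exp (2 * log (K * m)) = (K * m) ^ 2 := by
              rw [show (2 : ℝ) * log (K * m) = ((2 : ℕ) : ℝ) * log (K * m) by norm_num,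
                exp_nat_mul, exp_log hZ0]
            rw [this]; ring
        _ ≤ C * (1 / (K * m) ^ 2) := by
            refine mul_le_mul_of_nonneg_right ?_ (by positivity)
            rw [hC]
            refine exp_le_exp.mpr ?_
            nlinarith
    have hprod : |∏ j, sinc (K * x j)| ≤ 1 / (K * x0) * (C * (1 / (K * m) ^ 2)) := by
      rw [Finset.abs_prod, ← Finset.mul_prod_erase Finset.univ _ (Finset.mem_univ i)]
      exact mul_le_mul hxi hprod0 (Finset.prod_nonneg fun _ _ => abs_nonneg _) (by positivity)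
    have hq := quartic K hK11
    have e1 : K - 1 = 2 * (k : ℝ) + 10 := by rw [hK']; ring
    have e2 : K + 1 = 2 * ((k + 1 : ℕ) : ℝ) + 10 := by rw [hK']; push_cast; ring
    calc |∏ j, sinc (K * x j)| / K ≤ 1 / (K * x0) * (C * (1 / (K * m) ^ 2)) / K :=
          div_le_div_of_nonneg_right hprod hK0.le
      _ = C / (m ^ 2 * x0) * (1 / K ^ 4) := by
          field_simp
      _ ≤ C / (m ^ 2 * x0) * (1 / 6 * (1 / (K - 1) ^ 3 - 1 / (K + 1) ^ 3)) :=
          mul_le_mul_of_nonneg_left hq (by positivity)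
      _ = C / (m ^ 2 * x0) * (1 / 6 * (1 / (2 * (k : ℝ) + 10) ^ 3)
            - 1 / 6 * (1 / (2 * ((k + 1 : ℕ) : ℝ) + 10) ^ 3)) := by
          rw [e1, e2]; ring

end Pool.Agent.Helper89.FA
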